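import Pool.Agent.TH598.KG.Main

/-!
# A compact Kähler threefold with a Gauduchon metric of negative total Chern scalar curvature all of
whose Kähler metrics have positive total scalar curvature

The manifold is the projective bundle `Γ \ (ℍ × ℙ²)` over a compact quotient `Γ \ ℍ` of the upper half
plane by a torsion free congruence subgroup of a quaternion order, where
`g = (a, b; c, d) ∈ Γ ⊂ SL(2, ℝ)` acts by `(z, [x₀ : x₁ : x₂]) ↦ (g z, [(c z + d) x₀ : x₁ : x₂])`.
-/

set_option autoImplicit false

open scoped Manifold ContDiff

namespace Pool.Agent.Results.MP_38461c_gt.GauduchonNegKahlerPos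

open Pool.Agent.W549.CY (Cn HermitianMetric)
open Pool.Agent.TH598 (IsKahler IsBalanced IsGauduchon HasTotalScalar)

/-- There is a compact connected Hausdorff complex manifold `X` of dimension `3` which carries a
Kähler metric and a balanced (hence Gauduchon) metric of negative total Chern scalar curvature, while
every Kähler metric on `X` has positive total (Chern) scalar curvature. -/
theorem result : ∃ (X : Type) (_ : TopologicalSpace X) (_ : CompactSpace X) (_ : T2Space X)
    (_ : ConnectedSpace X) (_ : ChartedSpace (Cn 3) X) (_ : IsManifold 𝓘(ℂ, Cn 3) ω X)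
    (_ : MeasurableSpace X) (_ : BorelSpace X),
    (∃ h : HermitianMetric 3 X, IsKahler h) ∧
    (∃ h : HermitianMetric 3 X, IsBalanced h ∧ IsGauduchon h ∧ ∃ T < 0, HasTotalScalar h T) ∧
    ∀ h : HermitianMetric 3 X, IsKahler h → ∃ T > 0, HasTotalScalar h T :=
  Pool.Agent.TH598.KG.main

end Pool.Agent.Results.MP_38461c_gt.GauduchonNegKahlerPos
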